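import Mathlib
import Pool.Agent.R594.Lp.Clopen

/-!
# MP_2a4eb4_gt: Q1 for all spaces with a base of clopen sets

`L_p(X)` and `C_p(C_p(X))` are written exactly as in the frozen statement `S12933`.
-/

set_option autoImplicit false

namespace Pool.Agent.Results.MP_2a4eb4_gt.ClopenBase

open TopologicalSpace

/-- Let `X` be a Tychonoff space with a base of clopen sets such that `L_p(X)` is perfectly normal.
Then `X` is strongly zero-dimensional, `C_p(C_p(X))` is perfectly normal, and every closed subspace
of every finite power of `C_p(X)` is separable. -/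
theorem result :
    ∀ (X : Type) [TopologicalSpace X] [T35Space X],
      IsTopologicalBasis {s : Set X | IsClopen s} →
      PerfectlyNormalSpace
          ↥(Submodule.span ℝ
            (Set.range (fun (x : X) (f : {f : X → ℝ // Continuous f}) => f.1 x))) →
      (∀ f : X → ℝ, Continuous f → ∀ a b : ℝ, a < b →
        ∃ C : Set X, IsClopen C ∧ {x | f x ≤ a} ⊆ C ∧ C ⊆ {x | f x < b}) ∧
      PerfectlyNormalSpace {g : {f : X → ℝ // Continuous f} → ℝ // Continuous g} ∧
      (∀ (n : ℕ) (S : Set (Fin n → {f : X → ℝ // Continuous f})), IsClosed S →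
        SeparableSpace ↥S) := by
  intro X _ _ hb hL
  exact Pool.Agent.R594.Lp.clopen_main hb hL

end Pool.Agent.Results.MP_2a4eb4_gt.ClopenBase
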