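import Mathlib
import Pool.Agent.R594.Lp.Dual

/-!
# MP_2a4eb4_gt: a positive answer for every Tychonoff space under Martin's axiom

`L_p(X)` and `C_p(C_p(X))` are written exactly as in the frozen statement `S12933`.
`Pool.Agent.R594.Lp.MartinAxiomAleph1` is Martin's axiom for `ℵ₁` dense sets.
-/

set_option autoImplicit false

namespace Pool.Agent.Results.MP_2a4eb4_gt.UnderMartin

/-- (1) In ZFC: if `L_p(X)` is perfectly normal then every discrete subspace of every finite power of
`X` is countable. (2) Martin's axiom for `ℵ₁` dense sets implies that for every Tychonoff space `X`,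
if `L_p(X)` is perfectly normal then `C_p(C_p(X))` is perfectly normal and every subspace of every
finite power of `X` is Lindelöf. -/
theorem result :
    (∀ (X : Type) [TopologicalSpace X] [T35Space X],
      PerfectlyNormalSpace
          ↥(Submodule.span ℝ
            (Set.range (fun (x : X) (f : {f : X → ℝ // Continuous f}) => f.1 x))) →
        ∀ n : ℕ, ∀ s : Set (Fin n → X), DiscreteTopology ↥s → s.Countable) ∧
    (Pool.Agent.R594.Lp.MartinAxiomAleph1 →
      ∀ (X : Type) [TopologicalSpace X] [T35Space X],
        PerfectlyNormalSpace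
            ↥(Submodule.span ℝ
              (Set.range (fun (x : X) (f : {f : X → ℝ // Continuous f}) => f.1 x))) →
          PerfectlyNormalSpace {g : {f : X → ℝ // Continuous f} → ℝ // Continuous g} ∧
          ∀ n : ℕ, ∀ s : Set (Fin n → X), IsLindelof s) := by
  refine ⟨fun X _ _ hL n s hs => ?_, fun hMA X _ _ hL => ?_⟩
  · have H : ∀ a : s, ∃ O : Set (Fin n → X), IsOpen O ∧ a.1 ∈ O ∧ ∀ b : s, a ≠ b → b.1 ∉ O := by
      intro a
      have h1 : IsOpen ({a} : Set s) := isOpen_discrete _
      obtain ⟨O, hO, hOa⟩ := isOpen_induced_iff.1 h1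
      refine ⟨O, hO, ?_, fun b hab hb => ?_⟩
      · have : a ∈ Subtype.val ⁻¹' O := by rw [hOa]; rfl
        exact this
      · have : b ∈ Subtype.val ⁻¹' O := hb
        rw [hOa] at this
        exact hab (Set.mem_singleton_iff.1 this).symm
    choose O hO haO hOb using H
    have := Pool.Agent.R594.Lp.spread_of_perfect hL n s (fun a : s => a.1) O hO haO hOb
    exact Set.countable_coe_iff.1 this
  · obtain ⟨h1, h2⟩ := Pool.Agent.R594.Lp.lp_to_cpcp hMA hL
    exact ⟨h2, fun n s => (h1 n).lindelof s⟩

end Pool.Agent.Results.MP_2a4eb4_gt.UnderMartin
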